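import Pool.Agent.PR33C.Defs

/-!
# [PR33C-BackC] preimages of admissible words with a bound for the number of ones (helper68, for helper33)
-/

set_option autoImplicit false

namespace Pool.Agent.PR33C

open Pool.Agent.PostTag Pool.Agent.PT33 Pool.Agent.PR33 List

private theorem countC_le (ks : List ℕ) : (code ks).count true ≤ 2 * ks.length := by
  induction ks with
  | nil => simp [code]
  | cons k ks ih =>
    have h : (run1 k).count true ≤ 2 := by
      unfold run1
      split_ifs <;> simp
    rw [code, List.count_append, List.count_append, List.count_replicate, List.length_cons]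
    simp only [Bool.false_eq_true, beq_iff_eq, if_false]
    omega

private theorem countC_ge (ks : List ℕ) : ks.length ≤ (code ks).count true := by
  induction ks with
  | nil => simp
  | cons k ks ih =>
    have h : 1 ≤ (run1 k).count true := by
      unfold run1
      split_ifs <;> simp
    rw [code, List.count_append, List.count_append, List.count_replicate, List.length_cons]
    omega

/-- the preimage of one gap -/
private theorem pieceC (e k : ℕ) (he : e = 0 ∨ e = 2) (hk : 5 ≤ k) (h6 : e = 2 → k ≠ 6) : ∃ js : List ℕ, js.length ≤ 2 ∧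
    T e (code js) = replicate k false ++ run1 k ∧ (e + chi (code js)) % 3 = nxt k ∧
      ∀ rest ctx, (ctx = 0 ∨ e = 0) → (∀ ctx', (ctx' = 0 ∨ nxt k = 0) → Good ctx' rest) → Good ctx (js ++ rest) := by
  obtain ⟨q, hq⟩ : ∃ q, k = 4 * q ∨ k = 4 * q + 1 ∨ k = 4 * q + 2 ∨ k = 4 * q + 3 := ⟨k / 4, by omega⟩
  have hg : ∀ j rest ctx, (ctx = 0 ∨ e = 0) → 5 ≤ j → (e = 0 → j ≠ 6) → (nxt j = 0 ∨ nxt k = 0) →
      (∀ ctx', (ctx' = 0 ∨ nxt k = 0) → Good ctx' rest) → Good ctx (j :: rest) := by
    intro j rest ctx hctx h5 h6 hn hr
    refine ⟨h5, fun h2 => ?_, hr _ hn⟩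
    rcases hctx with h | h
    · omega
    · exact h6 h
  rcases he with rfl | rfl
  · rcases hq with rfl | rfl | rfl | rfl
    · -- split
      obtain ⟨h1, h2⟩ := piece_s (p := 0) (i := 5) (j := 6 * q - 7) (k := 4 * q) (by norm_num) (by omega) (by omega)
        (by simp only [nm]; omega) (by norm_num) (by omega)
      refine ⟨[5, 6 * q - 7], by simp, h1, h2, fun rest ctx hctx hr => ?_⟩
      have n5 : nxt 5 = 0 := by simp [nxt]
      have nj : nxt (6 * q - 7) = 0 := by
        unfold nxt
        rw [if_pos (by omega)]
      exact ⟨le_rfl, fun _ => by norm_num, ⟨by omega, fun h => by omega, by rw [nj]; exact hr 0 (Or.inl rfl)⟩⟩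
    · obtain ⟨h1, h2⟩ := piece_o1 (p := 0) (j := 6 * q + 1) (k := 4 * q + 1) (by omega) (by omega)
        (by simp only [nm]; omega) (by omega)
      refine ⟨[6 * q + 1], by simp, h1, h2, fun rest ctx hctx hr => hg _ _ _ hctx (by omega) (by omega) (Or.inr ?_) hr⟩
      unfold nxt
      rw [if_pos (by omega)]
    · obtain ⟨h1, h2⟩ := piece_e (p := 0) (j := 6 * q + 3) (k := 4 * q + 2) (by omega) (by omega)
        (by simp only [nm]; omega) (by omega)
      refine ⟨[6 * q + 3], by simp, h1, h2, fun rest ctx hctx hr => hg _ _ _ hctx (by omega) (by omega) (Or.inl ?_) hr⟩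
      unfold nxt
      rw [if_pos (by omega)]
    · obtain ⟨h1, h2⟩ := piece_o2 (p := 0) (j := 6 * q + 2) (k := 4 * q + 3) (by omega) (by omega)
        (by simp only [nm]; omega) (by omega)
      refine ⟨[6 * q + 2], by simp, h1, h2, fun rest ctx hctx hr => hg _ _ _ hctx (by omega) (by omega) (Or.inr ?_) hr⟩
      unfold nxt
      rw [if_pos (by omega)]
  · rcases hq with rfl | rfl | rfl | rfl
    · obtain ⟨h1, h2⟩ := piece_e (p := 2) (j := 6 * q + 1) (k := 4 * q) (by omega) (by omega)
        (by simp only [nm]; omega) (by omega)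
      refine ⟨[6 * q + 1], by simp, h1, h2, fun rest ctx hctx hr => hg _ _ _ hctx (by omega) (by omega) (Or.inl ?_) hr⟩
      unfold nxt
      rw [if_pos (by omega)]
    · obtain ⟨h1, h2⟩ := piece_o2 (p := 2) (j := 6 * q) (k := 4 * q + 1) (by omega) (by omega)
        (by simp only [nm]; omega) (by omega)
      refine ⟨[6 * q], by simp, h1, h2, fun rest ctx hctx hr => hg _ _ _ hctx (by omega) (by omega) (Or.inr ?_) hr⟩
      unfold nxt
      rw [if_pos (by omega)]
    · -- split
      have h7 := h6 rfl
      obtain ⟨h1, h2⟩ := piece_s (p := 2) (i := 9) (j := 6 * q - 7) (k := 4 * q + 2) (by norm_num) (by omega) (by omega)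
        (by simp only [nm]; omega) (by norm_num) (by omega)
      refine ⟨[9, 6 * q - 7], by simp, h1, h2, fun rest ctx hctx hr => ?_⟩
      have n5 : nxt 9 = 0 := by simp [nxt]
      have nj : nxt (6 * q - 7) = 0 := by
        unfold nxt
        rw [if_pos (by omega)]
      exact ⟨by norm_num, fun _ => by norm_num, ⟨by omega, fun h => by omega, by rw [nj]; exact hr 0 (Or.inl rfl)⟩⟩
    · obtain ⟨h1, h2⟩ := piece_o1 (p := 2) (j := 6 * q + 5) (k := 4 * q + 3) (by omega) (by omega)
        (by simp only [nm]; omega) (by omega)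
      refine ⟨[6 * q + 5], by simp, h1, h2, fun rest ctx hctx hr => hg _ _ _ hctx (by omega) (by omega) (Or.inr ?_) hr⟩
      unfold nxt
      rw [if_pos (by omega)]

/-- the preimage of a list of gaps -/
private theorem preC (ks : List ℕ) : ∀ e, (e = 0 ∨ e = 2) → Good e ks → ∃ js : List ℕ, js.length ≤ 2 * ks.length ∧
    T e (code js) = code ks ∧
    (e + chi (code js)) % 3 = fin e ks ∧
      ∀ rest ctx, (ctx = 0 ∨ e = 0) → (∀ ctx', Good ctx' rest) → Good ctx (js ++ rest) := by
  induction ks with
  | nil =>
    intro e he _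
    refine ⟨[], by simp, rfl, ?_, fun rest ctx _ hr => hr ctx⟩
    rcases he with rfl | rfl <;> rfl
  | cons k ks ih =>
    intro e he hg
    obtain ⟨h5, h6, hg'⟩ := hg
    obtain ⟨js, h0, h1, h2, h3⟩ := pieceC e k he h5 h6
    obtain ⟨is, g0, g1, g2, g3⟩ := ih (nxt k) (nxt_cases k) hg'
    have hm : (e + chi (code js)) % 3 = nxt k % 3 := by
      rw [h2]
      rcases nxt_cases k with h | h <;> rw [h]
    refine ⟨js ++ is, by rw [List.length_append, List.length_cons]; omega, ?_, ?_, fun rest ctx hctx hr => ?_⟩
    · rw [code_append, T_append, h1, T_congr (code is) hm, g1]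
      simp [code]
    · have h4 : (nxt k + chi (code is)) % 3 = fin e (k :: ks) := g2
      rw [code_append, chi_append, ← h4]
      omega
    · rw [List.append_assoc]
      exact h3 _ ctx hctx fun ctx' hctx' => g3 rest ctx' hctx' hr

/-- the last run -/
private theorem backendC (p m e b : ℕ) (hp : p = 0 ∨ p = 2) (hm : 48 ≤ m) (hs : m % 2 = 1 ↔ e % 3 = 1) : ∃ (js : List ℕ) (j : ℕ),
    js.length ≤ 2 ∧ m + 1 ≤ j ∧ (j % 2 = 1 ↔ b % 3 = 1) ∧ (∀ ctx, Good ctx js) ∧
      T p (code js ++ replicate j false) = replicate m false ∧ (p + chi (code js ++ replicate j false)) % 3 = e % 3 := by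
  have e5 : chi [true] = 2 := rfl
  have e6 : ([false] : List Bool) = replicate 1 false := rfl
  obtain ⟨i, c, hi, hi2, hi3, hc, hn, hgi⟩ : ∃ i c : ℕ, i % 2 = 1 ∧ 5 ≤ i ∧ (p + i) % 3 = 2 ∧ (c = 5 ∨ c = 7) ∧
      nm p i + 1 = c ∧ i ≠ 6 := by
    rcases hp with rfl | rfl
    · exact ⟨5, 5, by norm_num, by norm_num, by norm_num, Or.inl rfl, by simp only [nm], by norm_num⟩
    · exact ⟨9, 7, by norm_num, by norm_num, by norm_num, Or.inr rfl, by simp only [nm], by norm_num⟩
  obtain ⟨j, d, h1, h2, h3, h4, h5⟩ := exists_j c m e b hc hm hs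
  have c1 : code [i] = replicate i false ++ [true] := by simp [code, run1, hi]
  have e4 : T (p + i) [true] = [false] := T_run2 hi3
  have ni : nxt i = 0 := by simp [nxt, hi]
  rcases h4 with rfl | rfl
  · refine ⟨[i], j, by simp, h1, h3, fun ctx => ⟨hi2, fun _ => hgi, trivial⟩, ?_, ?_⟩
    · have e7 : nm (p + i + 2) j = nm 1 j := by
        simp only [nm]
        have : (p + i + 2) % 3 = 1 := by omega
        rw [this]
      rw [c1, List.append_assoc, T_gap, T_append, e4, e5, T_replicate, e7, e6, ← List.replicate_add, ← List.replicate_add]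
      congr 1
      omega
    · rw [c1, chi_append, chi_append, chi_replicate, chi_replicate, e5]
      omega
  · have c2 : code [i, 7] = replicate i false ++ ([true] ++ (replicate 7 false ++ [true])) := by simp [code, run1, hi]
    refine ⟨[i, 7], j, by simp, h1, h3, fun ctx => ⟨hi2, fun _ => hgi, ⟨by norm_num, fun _ => by norm_num, trivial⟩⟩, ?_, ?_⟩
    · have e7 : nm (p + i + 2 + 7 + 2) j = nm 1 j := by
        simp only [nm]
        have : (p + i + 2 + 7 + 2) % 3 = 1 := by omega
        rw [this]
      have e8 : nm (p + i + 2) 7 = 5 := by simp only [nm]; omega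
      have e9 : T (p + i + 2 + 7) [true] = [false] := T_run2 (by omega)
      rw [c2]
      simp only [List.append_assoc]
      rw [T_gap, T_append, e4, e5, T_gap, T_append, e8, e9, e5, T_replicate, e7, e6, rep_add, rep_add, rep_add,
        ← List.replicate_add]
      congr 1
      omega
    · rw [c2, chi_append, chi_append, chi_append, chi_append, chi_replicate, chi_replicate, chi_replicate, e5]
      omega

/-- every admissible word has admissible preimages for all phases -/
theorem backC {N s e : ℕ} {w' : List Bool} (hN : 48 ≤ N) (h : Adm N s e w') (s' e' : ℕ) : ∃ w, T s w = w' ∧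
    (s + chi w) % 3 = e % 3 ∧ Adm (N + 1) s' e' w ∧ w.count true ≤ 4 * w'.count true + 7 := by
  obtain ⟨n, ks, m, rfl, hn, hm, hg, hs, he⟩ := h
  obtain ⟨i, j0, a1, a2, a3, a4, a5⟩ := front s n (if s' % 3 = 1 then 0 else 1) (by omega) hs
  obtain ⟨js, b0, b1, b2, b3⟩ := preC ks 0 (Or.inl rfl) hg
  obtain ⟨js2, j, c0, c1, c2, c3, c4, c5⟩ := backendC (fin 0 ks) m e e' (fin_cases' ks 0 (Or.inl rfl)) (by omega) he
  have ew : replicate i false ++ (true :: (code (j0 :: (js ++ js2)) ++ replicate j false)) =
      (replicate i false ++ (true :: code [j0])) ++ (code js ++ (code js2 ++ replicate j false)) := by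
    have : code (j0 :: (js ++ js2)) = code [j0] ++ (code js ++ code js2) := by
      rw [← code_append, ← code_append]
      rfl
    rw [this]
    simp only [List.append_assoc, List.cons_append]
  have p1 : (s + chi (replicate i false ++ (true :: code [j0]))) % 3 = 0 % 3 := by rw [a5]
  have p2 : (s + chi (replicate i false ++ (true :: code [j0])) + chi (code js)) % 3 = fin 0 ks % 3 := by
    have : (0 + chi (code js)) % 3 % 3 = fin 0 ks % 3 := by rw [b2]
    omega
  refine ⟨replicate i false ++ (true :: (code (j0 :: (js ++ js2)) ++ replicate j false)), ?_, ?_, ?_, ?_⟩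
  · rw [ew, T_append (replicate i false ++ (true :: code [j0])), T_append (code js), a4, T_congr (code js) p1, b1,
      T_congr (code js2 ++ replicate j false) p2, c4]
    simp
  · rw [ew, chi_append (replicate i false ++ (true :: code [j0])), chi_append (code js)]
    omega
  · refine ⟨i, j0 :: (js ++ js2), j, rfl, by omega, by omega, ?_, ?_, ?_⟩
    · refine ⟨by omega, fun h => by omega, ?_⟩
      exact b3 js2 _ (Or.inr rfl) c3
    · by_cases h : s' % 3 = 1
      · rw [if_pos h] at a2
        constructor
        · intro h1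
          omega
        · intro h1
          exact absurd h h1
      · rw [if_neg h] at a2
        exact ⟨fun _ => h, fun _ => by omega⟩
    · exact c2
  · have k1 := countC_le (j0 :: (js ++ js2))
    have k2 := countC_ge ks
    have k3 : (j0 :: (js ++ js2)).length ≤ 2 * ks.length + 3 := by
      rw [List.length_cons, List.length_append]; omega
    have k4 : (replicate i false ++ (true :: (code (j0 :: (js ++ js2)) ++ replicate j false))).count true =
        (code (j0 :: (js ++ js2))).count true + 1 := by
      rw [List.count_append, List.count_cons, List.count_append, List.count_replicate, List.count_replicate]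
      simp
    have k5 : (replicate n false ++ (true :: (code ks ++ replicate m false))).count true =
        (code ks).count true + 1 := by
      rw [List.count_append, List.count_cons, List.count_append, List.count_replicate, List.count_replicate]
      simp
    rw [k4, k5]
    omega

end Pool.Agent.PR33C
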