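import Pool.Agent.PR33C.Defs
import Pool.Agent.H27AI.CFGPump
import Pool.Agent.H27AI.RegLemmas
import Pool.Agent.PostTag.Auto

/-!
# [PR33C-CF] context-free languages of inputs with few ones contain halting inputs (helper77)

Pumping with a regular colouring keeps the form `u w v` with at most `N` ones in `w`; so the pumped pieces are runs of zeros, and the
pumped words are the words of a line of inputs.
-/

set_option autoImplicit false

namespace Pool.Agent.PR33C

open Pool.Agent.PostTag Pool.Agent.PT33 Pool.Agent.PR33 Pool.Agent.H27AI List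

/-- the words with at most `N` ones between `u` and `v` form a regular language -/
theorem regular_few (u v : List Bool) (N : ℕ) : ∃ R : Language Bool, R.IsRegular ∧
    ∀ x : List Bool, x ∈ R ↔ ∃ w, x = u ++ w ++ v ∧ w.count true ≤ N := by
  have h1 : (lang {w : List Bool | min (w.count true) (N + 1) ∈ {i : ℕ | i ≤ N}}).IsRegular := by
    have h2 := regular_of_inv (A := Bool) (γ := Fin (N + 2))
      (fun w => ⟨min (w.count true) (N + 1), by omega⟩) (by
        intro x y z hxy
        simp only [Fin.mk.injEq, List.count_append] at hxy ⊢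
        omega) {i | (i : ℕ) ≤ N}
    exact h2
  have hs : ∀ y : List Bool, (lang ({y} : Set (List Bool))).IsRegular := fun y =>
    regular_of_finite (Set.finite_singleton y)
  refine ⟨lang {u} * lang {w : List Bool | min (w.count true) (N + 1) ∈ {i : ℕ | i ≤ N}} * lang {v},
    regular_mul (regular_mul (hs u) h1) (hs v), fun x => ?_⟩
  rw [Language.mem_mul]
  constructor
  · rintro ⟨y, hy, z, hz, rfl⟩
    rw [Language.mem_mul] at hy
    obtain ⟨a, ha, w, hw, rfl⟩ := hy
    have e1 : a = u := ha
    have e2 : z = v := hz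
    have e3 : min (w.count true) (N + 1) ≤ N := hw
    refine ⟨w, by rw [e1, e2], by omega⟩
  · rintro ⟨w, rfl, hw⟩
    refine ⟨u ++ w, ?_, v, rfl, rfl⟩
    rw [Language.mem_mul]
    refine ⟨u, rfl, w, ?_, rfl⟩
    show min (w.count true) (N + 1) ≤ N
    omega

/-- a word without ones -/
theorem eq_zeros {x : List Bool} (h : x.count true = 0) : x = replicate x.length false := by
  rw [List.count_eq_zero] at h
  rw [List.eq_replicate_iff]
  refine ⟨rfl, fun b hb => ?_⟩
  cases b
  · rfl
  · exact absurd hb h

theorem flatten_zeros (i a : ℕ) : (replicate i (replicate a false)).flatten = replicate (i * a) false := by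
  rw [List.flatten_replicate_replicate]

theorem cf_halts (u v : List Bool) (N : ℕ) (K : Language Bool) (hK : K.IsContextFree)
    (h : {w : List Bool | w.count true ≤ N ∧ u ++ w ++ v ∈ K}.Infinite) :
    ∃ w : List Bool, w.count true ≤ N ∧ u ++ w ++ v ∈ K ∧ Halts (u ++ w ++ v) := by
  obtain ⟨g, rfl⟩ := hK
  obtain ⟨R, hR, hmem⟩ := regular_few u v N
  obtain ⟨p, hp⟩ := cfg_pumping g R hR
  obtain ⟨w, hw, hlen⟩ : ∃ w : List Bool, (w.count true ≤ N ∧ u ++ w ++ v ∈ g.language) ∧ p ≤ w.length := by
    by_contra hcon
    push Not at hcon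
    apply h
    apply (List.finite_length_lt Bool p).subset
    intro w hw
    exact hcon w hw
  obtain ⟨c, x, s, y, z, -, hxy, hi⟩ := hp (u ++ w ++ v) hw.2 (by
    rw [List.length_append, List.length_append]
    omega)
  have hwR : u ++ w ++ v ∈ R := (hmem _).2 ⟨w, rfl, hw.1⟩
  have hin : ∀ i : ℕ, ∃ w', c ++ (List.replicate i x).flatten ++ s ++ (List.replicate i y).flatten ++ z = u ++ w' ++ v ∧
      w'.count true ≤ N := fun i => (hmem _).1 ((hi i).2.2 hwR)
  have hcount : ∀ (i : ℕ) (x : List Bool), (List.replicate i x).flatten.count true = i * x.count true := by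
    intro i x
    induction i with
    | zero => simp
    | succ i ih =>
      rw [List.replicate_succ, List.flatten_cons, List.count_append, ih]
      ring
  have hzero : x.count true + y.count true = 0 := by
    by_contra hne
    obtain ⟨w', h1, h2⟩ := hin (u.count true + N + v.count true + 1)
    have h3 := congrArg (List.count true) h1
    simp only [List.count_append, hcount] at h3
    have h4 : (u.count true + N + v.count true + 1) * 1 ≤
        (u.count true + N + v.count true + 1) * (x.count true + y.count true) := Nat.mul_le_mul_left _ (by omega)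
    rw [Nat.mul_add] at h4
    omega
  have ex := eq_zeros (x := x) (by omega)
  have ey := eq_zeros (x := y) (by omega)
  obtain ⟨a, ha⟩ : ∃ a, a = x.length := ⟨_, rfl⟩
  obtain ⟨b, hb⟩ : ∃ b, b = y.length := ⟨_, rfl⟩
  rw [← ha] at ex
  rw [← hb] at ey
  rw [← ha, ← hb] at hxy
  have hne : ∃ e ∈ [((0 : ℕ), (0 : ℕ), c), (0, a, s), (0, b, z)], 0 < e.2.1 := by
    rcases Nat.eq_zero_or_pos a with h0 | h0
    · exact ⟨(0, b, z), by simp, by simp only; omega⟩
    · exact ⟨(0, a, s), by simp, h0⟩
  obtain ⟨n0, M, hn⟩ := lines_haltS _ hne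
  have hh := hn 0
  have e1 : ([((0 : ℕ), (0 : ℕ), c), (0, a, s), (0, b, z)].flatMap fun e =>
      List.replicate (e.1 + (n0 + 3 ^ M * 0) * e.2.1) false ++ e.2.2) =
      c ++ (List.replicate n0 x).flatten ++ s ++ (List.replicate n0 y).flatten ++ z := by
    rw [ex, ey, flatten_zeros, flatten_zeros]
    simp
  rw [e1] at hh
  obtain ⟨w', h1, h2⟩ := hin n0
  refine ⟨w', h2, ?_, ?_⟩
  · rw [← h1]
    exact (hi n0).1
  · rw [← h1]
    exact hh

end Pool.Agent.PR33C
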