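import Pool.Agent.PR33C.Defs
import Pool.Agent.PR33.Tail

/-!
# [PR33C-Chain] backward chains with a constant number of ones (helper33)

With at least four gaps per pass, every word of gaps has a predecessor with the same number of gaps; all gaps become longer.
-/

set_option autoImplicit false

namespace Pool.Agent.PR33C

open Pool.Agent.PostTag Pool.Agent.PT33 Pool.Agent.PR33 List

/-! ### One gap -/

private theorem t_o1 {c j k : ℕ} (hj : j % 2 = 1) (hk : k % 2 = 1) (hn : pend c + nm c j = k)
    (hp : (c + j) % 3 = 1) : replicate (pend c) false ++ T c (code [j]) =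
      code [k] ++ replicate (pend 0) false ∧ (c + chi (code [j])) % 3 = 0 := by
  have e1 : code [j] = replicate j false ++ [true] := by simp [code, run1, hj]
  have e2 : code [k] = replicate k false ++ [true] := by simp [code, run1, hk]
  have e5 : chi [true] = 2 := rfl
  have p0 : pend 0 = 0 := by simp [pend]
  rw [e1, e2, T_gap, T_run1 hp, chi_append, chi_replicate, e5, p0, rep_add, hn]
  refine ⟨by simp, by omega⟩

private theorem t_o2 {c j k : ℕ} (hj : j % 2 = 0) (hk : k % 2 = 1) (hn : pend c + nm c j + 1 = k)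
    (hp : (c + j) % 3 = 2) : replicate (pend c) false ++ T c (code [j]) =
      code [k] ++ replicate (pend 0) false ∧ (c + chi (code [j])) % 3 = 0 := by
  have e1 : code [j] = replicate j false ++ [true, true] := by simp [code, run1, hj]
  have e2 : code [k] = replicate k false ++ [true] := by simp [code, run1, hk]
  have e5 : chi [true, true] = 4 := rfl
  have e6 : ([false, true] : List Bool) = replicate 1 false ++ [true] := rfl
  have p0 : pend 0 = 0 := by simp [pend]
  rw [e1, e2, T_gap, T_run22 hp, chi_append, chi_replicate, e5, p0, e6, rep_add, rep_add, hn]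
  refine ⟨by simp, by omega⟩

private theorem t_e {c j k : ℕ} (hj : j % 2 = 1) (hk : k % 2 = 0) (hn : pend c + nm c j = k)
    (hp : (c + j) % 3 = 0) : replicate (pend c) false ++ T c (code [j]) =
      code [k] ++ replicate (pend 2) false ∧ (c + chi (code [j])) % 3 = 2 := by
  have e1 : code [j] = replicate j false ++ [true] := by simp [code, run1, hj]
  have e2 : code [k] = replicate k false ++ [true, true] := by simp [code, run1, hk]
  have e5 : chi [true] = 2 := rfl
  have p0 : pend 2 = 0 := by simp [pend]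
  rw [e1, e2, T_gap, T_run0 hp, chi_append, chi_replicate, e5, p0, rep_add, hn]
  refine ⟨by simp, by omega⟩

private theorem t_f {c j k : ℕ} (hj : j % 2 = 0) (hk : k % 2 = 0) (hn : pend c + nm c j = k)
    (hp : (c + j) % 3 = 0) : replicate (pend c) false ++ T c (code [j]) =
      code [k] ++ replicate (pend 1) false ∧ (c + chi (code [j])) % 3 = 1 := by
  have e1 : code [j] = replicate j false ++ [true, true] := by simp [code, run1, hj]
  have e2 : code [k] = replicate k false ++ [true, true] := by simp [code, run1, hk]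
  have e5 : chi [true, true] = 4 := rfl
  have h2 : (c + j + 2) % 3 = 2 := by omega
  have e7 : T (c + j) [true, true] = [true, true, false] := by
    simp [T, out, hp, wt, h2]
  have p0 : pend 1 = 1 := by simp [pend]
  rw [e1, e2, T_gap, e7, chi_append, chi_replicate, e5, p0, rep_add, hn]
  refine ⟨by simp, by omega⟩

/-- the gap before -/
def pj (c k : ℕ) : ℕ :=
  if c = 0 then (if k % 4 = 0 then 6 * (k / 4) else if k % 4 = 1 then 6 * (k / 4) + 1 else
    if k % 4 = 2 then 6 * (k / 4) + 3 else 6 * (k / 4) + 2)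
  else if c = 1 then (if k % 4 = 0 then 6 * (k / 4) - 1 else if k % 4 = 1 then 6 * (k / 4) - 2 else
    if k % 4 = 2 then 6 * (k / 4) + 2 else 6 * (k / 4) + 3)
  else (if k % 4 = 0 then 6 * (k / 4) + 1 else if k % 4 = 1 then 6 * (k / 4) else
    if k % 4 = 2 then 6 * (k / 4) + 4 else 6 * (k / 4) + 5)

/-- the phase after the gap and its run -/
def pc (c k : ℕ) : ℕ :=
  if k % 2 = 1 then 0 else if c = 0 then (if k % 4 = 2 then 2 else 1) else (if k % 4 = 2 then 1 else 2)

theorem pc_lt (c k : ℕ) : pc c k < 3 := by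
  unfold pc
  split_ifs <;> norm_num

theorem pc_congr {c d : ℕ} (k : ℕ) (h : c = 0 ↔ d = 0) : pc c k = pc d k := by
  unfold pc
  by_cases hc : c = 0
  · rw [if_pos hc, if_pos (h.1 hc)]
  · rw [if_neg hc, if_neg fun hd => hc (h.2 hd)]

theorem pc_zero (c k : ℕ) : pc c k = 0 ↔ k % 2 = 1 := by
  unfold pc
  split_ifs <;> simp_all

theorem piece1 (c k : ℕ) (hc : c < 3) (hk : 8 ≤ k) : k + 1 ≤ pj c k ∧
    replicate (pend c) false ++ T c (code [pj c k]) = code [k] ++ replicate (pend (pc c k)) false ∧
      (c + chi (code [pj c k])) % 3 = pc c k := by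
  obtain ⟨q, hq⟩ : ∃ q, k = 4 * q ∨ k = 4 * q + 1 ∨ k = 4 * q + 2 ∨ k = 4 * q + 3 :=
    ⟨k / 4, by omega⟩
  have h3 : c = 0 ∨ c = 1 ∨ c = 2 := by omega
  have p0 : pend 0 = 0 := by simp [pend]
  have p1 : pend 1 = 1 := by simp [pend]
  have p2 : pend 2 = 0 := by simp [pend]
  have d0 : 4 * q / 4 = q := by omega
  have d1 : (4 * q + 1) / 4 = q := by omega
  have d2 : (4 * q + 2) / 4 = q := by omega
  have d3 : (4 * q + 3) / 4 = q := by omega
  have m0 : 4 * q % 4 = 0 := by omega
  have m1 : (4 * q + 1) % 4 = 1 := by omega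
  have m2 : (4 * q + 2) % 4 = 2 := by omega
  have m3 : (4 * q + 3) % 4 = 3 := by omega
  have n0 : 4 * q % 2 = 0 := by omega
  have n1 : (4 * q + 1) % 2 = 1 := by omega
  have n2 : (4 * q + 2) % 2 = 0 := by omega
  have n3 : (4 * q + 3) % 2 = 1 := by omega
  rcases h3 with rfl | rfl | rfl
  · rcases hq with rfl | rfl | rfl | rfl
    · have e1 : pj 0 (4 * q) = 6 * q := by simp [pj, d0]
      have e2 : pc 0 (4 * q) = 1 := by simp [pc, m0, n0]
      rw [e1, e2]
      exact ⟨by omega, t_f (by omega) (by omega) (by rw [p0]; simp only [nm]; omega) (by omega)⟩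
    · have e1 : pj 0 (4 * q + 1) = 6 * q + 1 := by simp [pj, d1, m1]
      have e2 : pc 0 (4 * q + 1) = 0 := by simp [pc, n1]
      rw [e1, e2]
      exact ⟨by omega, t_o1 (by omega) (by omega) (by rw [p0]; simp only [nm]; omega) (by omega)⟩
    · have e1 : pj 0 (4 * q + 2) = 6 * q + 3 := by simp [pj, d2, m2]
      have e2 : pc 0 (4 * q + 2) = 2 := by simp [pc, m2, n2]
      rw [e1, e2]
      exact ⟨by omega, t_e (by omega) (by omega) (by rw [p0]; simp only [nm]; omega) (by omega)⟩
    · have e1 : pj 0 (4 * q + 3) = 6 * q + 2 := by simp [pj, d3, m3]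
      have e2 : pc 0 (4 * q + 3) = 0 := by simp [pc, n3]
      rw [e1, e2]
      exact ⟨by omega, t_o2 (by omega) (by omega) (by rw [p0]; simp only [nm]; omega) (by omega)⟩
  · rcases hq with rfl | rfl | rfl | rfl
    · have e1 : pj 1 (4 * q) = 6 * q - 1 := by simp [pj, d0]
      have e2 : pc 1 (4 * q) = 2 := by simp [pc, m0, n0]
      rw [e1, e2]
      exact ⟨by omega, t_e (by omega) (by omega) (by rw [p1]; simp only [nm]; omega) (by omega)⟩
    · have e1 : pj 1 (4 * q + 1) = 6 * q - 2 := by simp [pj, d1, m1]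
      have e2 : pc 1 (4 * q + 1) = 0 := by simp [pc, n1]
      rw [e1, e2]
      exact ⟨by omega, t_o2 (by omega) (by omega) (by rw [p1]; simp only [nm]; omega) (by omega)⟩
    · have e1 : pj 1 (4 * q + 2) = 6 * q + 2 := by simp [pj, d2, m2]
      have e2 : pc 1 (4 * q + 2) = 1 := by simp [pc, m2, n2]
      rw [e1, e2]
      exact ⟨by omega, t_f (by omega) (by omega) (by rw [p1]; simp only [nm]; omega) (by omega)⟩
    · have e1 : pj 1 (4 * q + 3) = 6 * q + 3 := by simp [pj, d3, m3]
      have e2 : pc 1 (4 * q + 3) = 0 := by simp [pc, n3]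
      rw [e1, e2]
      exact ⟨by omega, t_o1 (by omega) (by omega) (by rw [p1]; simp only [nm]; omega) (by omega)⟩
  · rcases hq with rfl | rfl | rfl | rfl
    · have e1 : pj 2 (4 * q) = 6 * q + 1 := by simp [pj, d0]
      have e2 : pc 2 (4 * q) = 2 := by simp [pc, m0, n0]
      rw [e1, e2]
      exact ⟨by omega, t_e (by omega) (by omega) (by rw [p2]; simp only [nm]; omega) (by omega)⟩
    · have e1 : pj 2 (4 * q + 1) = 6 * q := by simp [pj, d1, m1]
      have e2 : pc 2 (4 * q + 1) = 0 := by simp [pc, n1]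
      rw [e1, e2]
      exact ⟨by omega, t_o2 (by omega) (by omega) (by rw [p2]; simp only [nm]; omega) (by omega)⟩
    · have e1 : pj 2 (4 * q + 2) = 6 * q + 4 := by simp [pj, d2, m2]
      have e2 : pc 2 (4 * q + 2) = 1 := by simp [pc, m2, n2]
      rw [e1, e2]
      exact ⟨by omega, t_f (by omega) (by omega) (by rw [p2]; simp only [nm]; omega) (by omega)⟩
    · have e1 : pj 2 (4 * q + 3) = 6 * q + 5 := by simp [pj, d3, m3]
      have e2 : pc 2 (4 * q + 3) = 0 := by simp [pc, n3]
      rw [e1, e2]
      exact ⟨by omega, t_o1 (by omega) (by omega) (by rw [p2]; simp only [nm]; omega) (by omega)⟩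

/-! ### Lists of gaps -/

/-- the gaps before -/
def pr : ℕ → List ℕ → List ℕ
  | _, [] => []
  | c, k :: ks => pj c k :: pr (pc c k) ks

/-- the phase at the end -/
def fc : ℕ → List ℕ → ℕ
  | c, [] => c
  | c, k :: ks => fc (pc c k) ks

theorem pr_length (ks : List ℕ) : ∀ c, (pr c ks).length = ks.length := by
  induction ks with
  | nil => intro c; rfl
  | cons k ks ih => intro c; simp [pr, ih]

theorem fc_append (ks ls : List ℕ) : ∀ c, fc c (ks ++ ls) = fc (fc c ks) ls := by
  induction ks with
  | nil => intro c; rfl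
  | cons k ks ih => intro c; exact ih _

theorem fc_lt (ks : List ℕ) : ∀ c, c < 3 → fc c ks < 3 := by
  induction ks with
  | nil => intro c hc; exact hc
  | cons k ks ih => intro c _; exact ih _ (pc_lt c k)

theorem fc_ind {ks : List ℕ} (h : 2 ≤ ks.length) (c d : ℕ) : fc c ks = fc d ks := by
  rcases ks with _ | ⟨k, _ | ⟨l, ks⟩⟩
  · simp at h
  · simp at h
  · have e : pc (pc c k) l = pc (pc d k) l := pc_congr l (by rw [pc_zero, pc_zero])
    show fc (pc (pc c k) l) ks = fc (pc (pc d k) l) ks
    rw [e]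

theorem fc_pr_ind {ks : List ℕ} (h : 4 ≤ ks.length) (c d e : ℕ) : fc e (pr c ks) = fc e (pr d ks) := by
  rcases ks with _ | ⟨k, _ | ⟨l, ks⟩⟩
  · simp at h
  · simp at h
  · have e1 : pc (pc c k) l = pc (pc d k) l := pc_congr l (by rw [pc_zero, pc_zero])
    show fc (pc (pc e (pj c k)) (pj (pc c k) l)) (pr (pc (pc c k) l) ks) =
      fc (pc (pc e (pj d k)) (pj (pc d k) l)) (pr (pc (pc d k) l) ks)
    rw [e1]
    apply fc_ind
    rw [pr_length]
    simp only [List.length_cons] at h
    omega

theorem pr_gap {G : ℕ} (hG : 8 ≤ G) (ks : List ℕ) : ∀ c, c < 3 → (∀ k ∈ ks, G ≤ k) → ∀ j ∈ pr c ks, G + 1 ≤ j := by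
  induction ks with
  | nil => intro c _ _ j hj; simp [pr] at hj
  | cons k ks ih =>
    intro c hc h j hj
    rw [pr, List.mem_cons] at hj
    have hk := h k (by simp)
    rcases hj with rfl | hj
    · have := (piece1 c k hc (by omega)).1
      omega
    · exact ih _ (pc_lt c k) (fun k' hk' => h k' (by simp [hk'])) j hj

theorem pr_T (ks : List ℕ) : ∀ c, c < 3 → (∀ k ∈ ks, 8 ≤ k) →
    replicate (pend c) false ++ T c (code (pr c ks)) = code ks ++ replicate (pend (fc c ks)) false ∧
      (c + chi (code (pr c ks))) % 3 = fc c ks := by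
  induction ks with
  | nil =>
    intro c hc _
    refine ⟨by simp [pr, fc, code], ?_⟩
    simp only [pr, fc, code, chi_nil]
    omega
  | cons k ks ih =>
    intro c hc h
    obtain ⟨h2, h3, h4⟩ := piece1 c k hc (h k (by simp))
    obtain ⟨g3, g4⟩ := ih (pc c k) (pc_lt c k) fun k' hk' => h k' (by simp [hk'])
    have hm : (c + chi (code [pj c k])) % 3 = pc c k % 3 := by
      rw [h4, Nat.mod_eq_of_lt (pc_lt c k)]
    have ec : code (pj c k :: pr (pc c k) ks) = code [pj c k] ++ code (pr (pc c k) ks) := by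
      rw [← code_append]
      rfl
    have ek : code (k :: ks) = code [k] ++ code ks := by
      rw [← code_append]
      rfl
    refine ⟨?_, ?_⟩
    · show replicate (pend c) false ++ T c (code (pj c k :: pr (pc c k) ks)) =
        code (k :: ks) ++ replicate (pend (fc (pc c k) ks)) false
      rw [ec, ek, T_append, T_congr (code (pr (pc c k) ks)) hm, ← List.append_assoc, h3, List.append_assoc, g3,
        List.append_assoc]
    · show (c + chi (code (pj c k :: pr (pc c k) ks))) % 3 = fc (pc c k) ks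
      rw [ec, chi_append]
      omega

theorem code_six {ks : List ℕ} (h : 4 ≤ ks.length) (h8 : ∀ k ∈ ks, 8 ≤ k) :
    ∃ U', code ks = replicate 6 false ++ U' ∧ 2 ≤ U'.length := by
  rcases ks with _ | ⟨k, ks⟩
  · simp at h
  · have := h8 k (by simp)
    refine ⟨replicate (k - 6) false ++ (run1 k ++ code ks), ?_, ?_⟩
    · rw [code, rep_add]
      congr 2
      omega
    · rw [List.length_append, List.length_replicate]
      omega

/-! ### The chain -/

/-- `z` is reached from the gaps `ks`, read from the phase that they determine -/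
def Cst (z : List Bool) (ks : List ℕ) : Prop := 4 ≤ ks.length ∧
  Rch z ((dec (code ks ++ replicate (pend (fc 0 ks)) false)).drop (fc 0 ks % 3))

theorem chain1 {z : List Bool} {G : ℕ} {ks : List ℕ} (hG : 8 ≤ G) (hk : ∀ k ∈ ks, G ≤ k) (h : Cst z ks) :
    ∃ js : List ℕ, js.length = ks.length ∧ (∀ j ∈ js, G + 1 ≤ j) ∧ Cst z js := by
  obtain ⟨h4, hr⟩ := h
  obtain ⟨c, hc⟩ : ∃ c, c = fc 0 (pr 0 ks) := ⟨_, rfl⟩
  have hc3 : c < 3 := by rw [hc]; exact fc_lt _ 0 (by norm_num)
  have hg : ∀ j ∈ pr c ks, G + 1 ≤ j := pr_gap hG ks c hc3 hk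
  have hl : (pr c ks).length = ks.length := pr_length ks c
  have hf : fc 0 (pr c ks) = c := by rw [fc_pr_ind h4 c 0 0, ← hc]
  have hf2 : fc c ks = fc 0 ks := fc_ind (by omega) c 0
  refine ⟨pr c ks, hl, hg, by omega, ?_⟩
  rw [hf, dec_append]
  obtain ⟨h5, h6⟩ := pr_T ks c hc3 fun k hk' => hG.trans (hk k hk')
  apply partL c _ (code_six (by omega) fun j hj => by have := hg j hj; omega)
  rw [← dec_append, h5, h6, hf2]
  rw [Nat.mod_eq_of_lt (fc_lt ks 0 (by norm_num))] at hr
  exact hr

theorem chainN {z : List Bool} {ks : List ℕ} (hk : ∀ k ∈ ks, 8 ≤ k) (h : Cst z ks) (d : ℕ) :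
    ∃ js : List ℕ, js.length = ks.length ∧ (∀ j ∈ js, 8 + d ≤ j) ∧ Cst z js := by
  induction d with
  | zero => exact ⟨ks, rfl, hk, h⟩
  | succ d ih =>
    obtain ⟨js, h1, h2, h3⟩ := ih
    obtain ⟨is, g1, g2, g3⟩ := chain1 (by omega) h2 h3
    exact ⟨is, by rw [g1, h1], fun j hj => by have := g2 j hj; omega, g3⟩

/-- the beginning of the chain -/
theorem entry {z : List Bool} (h : Seed4 z) : ∃ ks : List ℕ, (∀ k ∈ ks, 8 ≤ k) ∧ Cst z ks := by
  obtain ⟨n, ks, m, q, hn, hm, hk, h4, hq, hr⟩ := h
  obtain ⟨c, hc⟩ : ∃ c, c = fc 0 ks := ⟨_, rfl⟩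
  have hc3 : c < 3 := by rw [hc]; exact fc_lt _ 0 (by norm_num)
  obtain ⟨js, j, g1, g2, g3, g4, g5⟩ := tailG 1 8 c m q (if n % 2 = 1 then 0 else 1) le_rfl hc3 (by omega) hq
  have hodd : (j + n) % 2 = 1 := by
    by_cases hp : n % 2 = 1
    · rw [if_pos hp] at g2
      have : ¬ j % 2 = 1 := fun h => by
        have := g2.1 h
        omega
      omega
    · rw [if_neg hp] at g2
      have := g2.2 (by norm_num)
      omega
  have hf : fc 0 (js ++ (j + n) :: ks) = c := by
    rw [fc_append, hc]
    exact fc_ind (ks := ks) (by omega) _ _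
  refine ⟨js ++ (j + n) :: ks, ?_, ?_, ?_⟩
  · intro k hk'
    rw [List.mem_append, List.mem_cons] at hk'
    rcases hk' with h | h | h
    · have := g3 k h
      omega
    · omega
    · exact hk k h
  · rw [List.length_append, List.length_cons]
    omega
  · rw [hf]
    have e1 : code (js ++ (j + n) :: ks) ++ replicate (pend c) false =
        (code js ++ replicate j false) ++ (replicate n false ++ (true :: (code ks ++ replicate (pend c) false))) := by
      rw [code_append, code]
      simp only [run1, hodd, if_true, List.append_assoc, List.cons_append, List.nil_append]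
      rw [rep_add]
    rw [e1, dec_append]
    apply part
    · rw [dec_append, List.length_append, dec_replicate_false, List.length_replicate]
      omega
    · rw [← dec_append, g5]
      have e2 : replicate n false ++ (true :: (code ks ++ replicate (pend c) false)) ++ T c (code js ++ replicate j false) =
          replicate n false ++ (true :: (code ks ++ replicate m false)) := by
        rw [← g4]
        simp only [List.append_assoc, List.cons_append]
      rw [e2]
      exact hr

/-- the end of the chain -/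
theorem exit {z : List Bool} {ks : List ℕ} {N : ℕ} (hk : ∀ k ∈ ks, 4 * N + 30 ≤ k) (h : Cst z ks) :
    ∃ (n : ℕ) (js : List ℕ) (m q : ℕ), N ≤ n ∧ N ≤ m ∧ (∀ k ∈ js, 8 ≤ k) ∧ js.length = ks.length ∧ (m % 2 = 1 ↔ q % 3 = 1) ∧
      Rch z ((dec (replicate n false ++ (true :: (code js ++ replicate m false)))).drop (q % 3)) := by
  obtain ⟨h4, hr⟩ := h
  rcases ks with _ | ⟨k, ks⟩
  · simp at h4
  have hk1 := hk k (by simp)
  have hk2 : ∀ k' ∈ ks, 8 ≤ k' := fun k' h' => by
    have := hk k' (by simp [h'])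
    omega
  obtain ⟨k', hk'⟩ : ∃ k', k = 2 * (N + 2) + (2 * (N + 2) + 2) + k' := ⟨k - (2 * (N + 2) + (2 * (N + 2) + 2)), by omega⟩
  have hk8 : 8 ≤ k' := by omega
  have hpar : k' % 2 = k % 2 := by omega
  have hrun : run1 k' = run1 k := by
    unfold run1
    rw [hpar]
  simp only [List.length_cons] at h4
  have hf : fc 1 (k' :: ks) = fc 0 (k :: ks) := fc_ind (ks := ks) (by omega) _ _
  obtain ⟨h5, h6⟩ := pr_T (k' :: ks) 1 (by norm_num) (by
    intro x hx
    rw [List.mem_cons] at hx
    rcases hx with rfl | hx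
    · exact hk8
    · exact hk2 x hx)
  have hg : ∀ j ∈ pr 1 (k' :: ks), 8 + 1 ≤ j := pr_gap le_rfl _ 1 (by norm_num) (by
    intro x hx
    rw [List.mem_cons] at hx
    rcases hx with rfl | hx
    · exact hk8
    · exact hk2 x hx)
  obtain ⟨js, hjs⟩ : ∃ js, js = pr 1 (k' :: ks) := ⟨_, rfl⟩
  have hl : js.length = (k :: ks).length := by rw [hjs, pr_length]; rfl
  rw [← hjs] at h5 h6 hg
  refine ⟨3 * (N + 2) + 2, js, 2 * (N + 2), 0, by omega, by omega, fun j hj => by have := hg j hj; omega, hl, by omega, ?_⟩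
  have e1 : replicate (3 * (N + 2) + 2) false ++ (true :: (code js ++ replicate (2 * (N + 2)) false)) =
      (replicate (3 * (N + 2) + 2) false ++ (true :: code js)) ++ replicate (2 * (N + 2)) false := by simp
  rw [e1, dec_append]
  apply partL
  · refine ⟨replicate (3 * N + 2) false ++ (true :: code js), ?_, ?_⟩
    · rw [rep_add]
      congr 2
      omega
    · rw [List.length_append, List.length_replicate]
      omega
  · have e2 : T 0 (replicate (3 * (N + 2) + 2) false ++ (true :: code js)) =
        replicate (2 * (N + 2) + 2) false ++ (replicate (pend 1) false ++ T 1 (code js)) := by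
      have h7 : nm 0 (3 * (N + 2) + 2) = 2 * (N + 2) + 2 := by simp only [nm]; omega
      have h8 : out (0 + (3 * (N + 2) + 2)) true = [false] := by
        have : (0 + (3 * (N + 2) + 2)) % 3 = 2 := by omega
        simp only [out, this]
        rfl
      have h9 : T (0 + (3 * (N + 2) + 2) + wt true) (code js) = T 1 (code js) := T_congr _ (by simp only [wt, if_true]; omega)
      have p1 : pend 1 = 1 := by simp [pend]
      rw [T_gap, h7, T_cons, h8, h9, p1]
      rfl
    have e3 : chi (replicate (3 * (N + 2) + 2) false ++ (true :: code js)) = 3 * (N + 2) + 2 + (2 + chi (code js)) := by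
      rw [chi_append, chi_replicate, chi_cons]
      rfl
    have e4 : (0 + (3 * (N + 2) + 2 + (2 + chi (code js)))) % 3 = fc 0 (k :: ks) := by
      rw [← hf, ← h6]
      omega
    rw [e2, e3, e4, ← dec_append, h5, hf]
    have e5 : replicate (2 * (N + 2)) false ++ (replicate (2 * (N + 2) + 2) false ++ (code (k' :: ks) ++
        replicate (pend (fc 0 (k :: ks))) false)) = code (k :: ks) ++ replicate (pend (fc 0 (k :: ks))) false := by
      rw [code, code, hrun]
      simp only [List.append_assoc]
      rw [rep_add, rep_add]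
      congr 2
      omega
    rw [e5]
    rw [Nat.mod_eq_of_lt (fc_lt (k :: ks) 0 (by norm_num))] at hr
    exact hr

/-- bounded families -/
theorem bseed {z : List Bool} (h : Seed4 z) : ∃ B, BSeed z B := by
  obtain ⟨ks, h1, h2⟩ := entry h
  refine ⟨ks.length, fun N => ?_⟩
  obtain ⟨js, g1, g2, g3⟩ := chainN h1 h2 (4 * N + 30)
  obtain ⟨n, is, m, q, e1, e2, e3, e4, e5, e6⟩ := exit (N := N) (fun k hk => by have := g2 k hk; omega) g3
  exact ⟨n, is, m, q, e1, e2, e3, by rw [e4, g1], e5, e6⟩

end Pool.Agent.PR33C
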