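import Pool.Agent.PR33C.BackC
import Pool.Agent.PT33.Fill

/-!
# [PR33C-ContextC] every context can be completed, with a bounded number of ones (helper68, for helper33)

`Pool/Agent/PT33/Fill.lean` again, with a bound for the number of ones of the filling words.
-/

set_option autoImplicit false

namespace Pool.Agent.PR33C

open Pool.Agent.PostTag Pool.Agent.PT33 Pool.Agent.PR33 List

/-- the context `X` with phase `q` can be filled by words with at most `B` ones -/
def FillC (z : List Bool) (N : ℕ) (X : List Bool) (q B : ℕ) : Prop :=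
  ∀ s' : ℕ, ∃ w, Adm N s' q w ∧ w.count true ≤ B ∧ Rch z ((dec (X ++ w)).drop (q % 3))

theorem FillC.mono {z : List Bool} {N M : ℕ} {X : List Bool} {q B : ℕ} (hNM : M ≤ N) (h : FillC z N X q B) :
    FillC z M X q B := by
  intro s'
  obtain ⟨w, h1, h2⟩ := h s'
  exact ⟨w, h1.mono hNM, h2⟩

theorem FillC.back {z : List Bool} {N : ℕ} {X : List Bool} {q q' B : ℕ} (hN : 48 ≤ N) (h : FillC z N (T q X) q' B) :
    FillC z (N + 1) X q (4 * B + 7) := by
  intro s'
  obtain ⟨w', h1, h0, h2⟩ := h (q + chi X)
  obtain ⟨w, g1, g2, g3, g4⟩ := backC hN h1 s' q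
  refine ⟨w, g3, by omega, ?_⟩
  rw [dec_append]
  apply part X q (dec w) (g3.long (by omega))
  apply partL _ _ (g3.six (by omega))
  rw [g1, g2, ← dec_append]
  exact h2

private theorem fill_repC {z : List Bool} {B : ℕ} (h : ∀ N q, FillC z N [] q B) (k N q : ℕ) :
    FillC z N (replicate k false) q B := by
  intro s'
  obtain ⟨s, hs⟩ : ∃ s : ℕ, ((k % 2 = 1) ↔ (s % 3 = 1 ↔ s' % 3 ≠ 1)) := by
    by_cases h1 : k % 2 = 1
    · by_cases h2 : s' % 3 = 1
      · exact ⟨0, by simp [h1, h2]⟩
      · exact ⟨1, by simp [h1, h2]⟩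
    · by_cases h2 : s' % 3 = 1
      · exact ⟨1, by simp [h1, h2]⟩
      · exact ⟨0, by simp [h1, h2]⟩
  obtain ⟨w, ⟨n, ks, m, rfl, h2, h3, h4, h5, h6⟩, h0, h7⟩ := h (N + k) q s
  refine ⟨replicate (n - k) false ++ (true :: (code ks ++ replicate m false)), ⟨n - k, ks, m, rfl, by omega, by omega, h4, ?_, h6⟩,
    ?_, ?_⟩
  · by_cases h8 : s % 3 = 1 <;> by_cases h9 : s' % 3 = 1 <;> simp only [h8, h9, ne_eq, not_true_eq_false, not_false_eq_true,
      iff_true, iff_false, true_iff, false_iff] at hs h5 ⊢ <;> omega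
  · rw [List.count_append, List.count_replicate] at h0 ⊢
    simpa using h0
  · rw [rep_add]
    rw [List.nil_append] at h7
    have : k + (n - k) = n := by omega
    rw [this]
    exact h7

private theorem fill_killC {z : List Bool} {B : ℕ} (h : ∀ N q, FillC z N [] q B) (d : ℕ) :
    ∀ X u : List Bool, Reach d X u → true ∉ u → ∃ B', ∀ N, ∃ q, FillC z N X q B' := by
  induction d with
  | zero =>
    intro X u hr hu
    have hX : X = u := hr
    rw [hX, eq_replicate_of_no_b hu]
    exact ⟨B, fun N => ⟨0, fill_repC h _ N 0⟩⟩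
  | succ d ih =>
    intro X u hr hu
    obtain ⟨q, _, hr'⟩ := hr
    obtain ⟨B', hB'⟩ := ih (T q X) u hr' hu
    refine ⟨4 * B' + 7, fun N => ?_⟩
    obtain ⟨q', hq⟩ := hB' (N + 48)
    exact ⟨q, (FillC.back (by omega) hq).mono (by omega)⟩

/-- all contexts can be filled -/
theorem fill_allC {z : List Bool} {B : ℕ} (h : ∀ N q, FillC z N [] q B) (X : List Bool) (q : ℕ) :
    ∃ B', ∀ N, FillC z N X q B' := by
  obtain ⟨d, u, h1, h2⟩ := exists_kill (T q X)
  obtain ⟨B', hB'⟩ := fill_killC h d (T q X) u h1 h2
  refine ⟨4 * B' + 7, fun N => ?_⟩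
  obtain ⟨q', h3⟩ := hB' (N + 48)
  exact (FillC.back (by omega) h3).mono (by omega)

private theorem count_dec (w : List Bool) : (dec w).count true = 3 * w.count true := by
  induction w with
  | nil => rfl
  | cons x w ih =>
    rw [dec_cons, List.count_append, ih, List.count_cons]
    cases x
    · simp [blk]
    · simp [blk]
      omega

private theorem count_codeC (ks : List ℕ) : (code ks).count true ≤ 2 * ks.length := by
  induction ks with
  | nil => simp [code]
  | cons k ks ih =>
    have h : (run1 k).count true ≤ 2 := by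
      unfold run1
      split_ifs <;> simp
    rw [code, List.count_append, List.count_append, List.count_replicate, List.length_cons]
    simp only [Bool.false_eq_true, beq_iff_eq, if_false]
    omega

private theorem good_of_long (ks : List ℕ) (h : ∀ k ∈ ks, 8 ≤ k) : ∀ e, Good e ks := by
  induction ks with
  | nil => intro e; trivial
  | cons k ks ih =>
    intro e
    have h1 := h k (by simp)
    exact ⟨by omega, fun _ => by omega, ih (fun j hj => h j (by simp [hj])) _⟩

/-- bounded seeds are enough -/
theorem fill_of_bseed {z : List Bool} {B : ℕ} (h : BSeed z B) (N q : ℕ) :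
    FillC z N [] q (4 * (4 * (2 * B + 1) + 7) + 7) := by
  obtain ⟨n, ks, m, q1, hn, hm, h8, hB, hq, hR⟩ := h (N + 48)
  obtain ⟨s, hs⟩ : ∃ s : ℕ, (n % 2 = 1 ↔ s % 3 ≠ 1) := by
    by_cases h1 : n % 2 = 1
    · exact ⟨0, by simp [h1]⟩
    · exact ⟨1, by simp [h1]⟩
  have ha : Adm (N + 48) s q1 (replicate n false ++ (true :: (code ks ++ replicate m false))) :=
    ⟨n, ks, m, rfl, hn, hm, good_of_long ks h8 0, hs, hq⟩
  have hc : (replicate n false ++ (true :: (code ks ++ replicate m false))).count true ≤ 2 * B + 1 := by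
    have := count_codeC ks
    have k5 : (replicate n false ++ (true :: (code ks ++ replicate m false))).count true =
        (code ks).count true + 1 := by
      rw [List.count_append, List.count_cons, List.count_append, List.count_replicate, List.count_replicate]
      simp
    omega
  have h1 : FillC z (N + 48 + 1) [] s (4 * (2 * B + 1) + 7) := by
    intro s'
    obtain ⟨w, g1, g2, g3, g4⟩ := backC (by omega) ha s' s
    refine ⟨w, g3, by omega, ?_⟩
    rw [List.nil_append]
    have h1 : Rch z ((dec w ++ []).drop (s % 3)) := by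
      apply partL _ _ (g3.six (by omega))
      rw [List.nil_append, g1, g2]
      exact hR
    simpa using h1
  have h2 : FillC z (N + 48 + 1 + 1) [] q (4 * (4 * (2 * B + 1) + 7) + 7) :=
    FillC.back (q' := s) (by omega) h1
  exact h2.mono (by omega)

/-- [C2] the statement for arbitrary binary words -/
theorem contextC {z : List Bool} {B : ℕ} (h : BSeed z B) (u v : List Bool) : ∃ B', ∀ L : ℕ, ∃ w : List Bool, L ≤ w.length ∧
    w.count true ≤ B' ∧ Rch z (u ++ w ++ v) := by
  obtain ⟨Ru, hRu⟩ : ∃ Ru, Ru = R 0 u := ⟨_, rfl⟩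
  obtain ⟨Rv, hRv⟩ : ∃ Rv, Rv = R 0 v := ⟨_, rfl⟩
  obtain ⟨g, hg⟩ : ∃ g, g = 0 + 2 * v.length := ⟨_, rfl⟩
  obtain ⟨B2, hB2⟩ := fill_allC (fun N q => fill_of_bseed h N q) (Rv ++ T g Ru) 0
  refine ⟨3 * (4 * (4 * B2 + 7) + 7), fun L => ?_⟩
  obtain ⟨w2, h1, h0, h2⟩ := hB2 (L + 48) (g + chi Ru)
  obtain ⟨w1, g1, g2, g3, g4⟩ := backC (by omega) h1 (2 * u.length) 0
  obtain ⟨w0, k1, k2, k3, k4⟩ := backC (by omega) g3 0 0
  refine ⟨dec w0, ?_, ?_, ?_⟩
  · obtain ⟨n, ks, m, rfl, hn, _⟩ := k3
    rw [dec_append, List.length_append, dec_replicate_false, List.length_replicate]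
    omega
  · rw [count_dec]
    omega
  · have s1 : Rch z ((u ++ (dec w0 ++ v)).drop (0 % 3)) := by
      apply raw u 0 (dec w0 ++ v)
      · rw [List.length_append]
        have := k3.long (by omega)
        omega
      · rw [List.append_assoc, ← hRu, Nat.zero_add]
        apply partL _ _ (k3.six (by omega))
        rw [k1, k2, List.append_assoc]
        apply raw v 0 (dec Ru ++ dec w1)
        · rw [List.length_append]
          have := g3.long (by omega)
          omega
        · rw [← hRv, ← hg, List.append_assoc]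
          apply part Ru g (dec w1 ++ dec Rv)
          · rw [List.length_append]
            have := g3.long (by omega)
            omega
          · rw [List.append_assoc]
            apply partL _ _ (g3.six (by omega))
            rw [g1, g2, ← dec_append, ← dec_append]
            exact h2
    rw [List.append_assoc]
    simpa using s1

end Pool.Agent.PR33C
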