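import Pool.Agent.PR33C.Final

/-!
Post's tag system `0 -> 00`, `1 -> 1101` with shift number 3: no context-free language contains all inputs (with a given beginning and a
given end) that end in a cycle of a given length and no input on which the system halts.
-/

set_option autoImplicit false

namespace Pool.Agent.PR33C.CFC

/-- `S` is one step of Post's tag system (delete the first three symbols, append `1101` or `00` according to the first symbol). For all
binary words `u`, `v` and every `p` that is `6`, `10` or even and at least `14` there is a number `N` such that (a) for infinitely many
words `w` with at most `N` ones the computation on `u w v` never reaches a word of length less than three and is eventually periodic with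
least period exactly `p`; (b) every context-free language that contains `u w v` for infinitely many `w` with at most `N` ones contains
`u w v` for such a `w` on which the computation reaches a word of length less than three (halts). -/
theorem result : ∀ S : List Bool → List Bool,
    (∀ x, S x = x.drop 3 ++ (if x.headI then [true, true, false, true] else [false, false])) →
    ∀ (u v : List Bool) (p : ℕ), (p = 6 ∨ p = 10 ∨ (14 ≤ p ∧ Even p)) → ∃ N : ℕ,
      {w : List Bool | w.count true ≤ N ∧ (∀ j : ℕ, 3 ≤ (S^[j] (u ++ w ++ v)).length) ∧
        ∃ k : ℕ, Function.minimalPeriod S (S^[k] (u ++ w ++ v)) = p}.Infinite ∧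
      ∀ K : Language Bool, K.IsContextFree → {w : List Bool | w.count true ≤ N ∧ u ++ w ++ v ∈ K}.Infinite →
        ∃ w : List Bool, w.count true ≤ N ∧ u ++ w ++ v ∈ K ∧ ∃ k : ℕ, (S^[k] (u ++ w ++ v)).length < 3 := by
  intro S hS u v p hp
  have e : S = Pool.Agent.PostTag.step := by
    funext x
    exact hS x
  rw [e]
  exact Pool.Agent.PR33C.main u v p hp

end Pool.Agent.PR33C.CFC
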