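import Pool.Agent.PR33.Seeds

/-!
# [PR33C-Defs] families of computations with a bounded number of ones (helper33)

`BSeed z B`: the cycle of `z` is reached from words with at most `B` gaps and arbitrarily long outer runs.
-/

set_option autoImplicit false

namespace Pool.Agent.PR33C

open Pool.Agent.PostTag Pool.Agent.PT33 Pool.Agent.PR33 List

/-- the word `z` is reached from words with at most `B` gaps and arbitrarily long runs at both ends -/
def BSeed (z : List Bool) (B : ℕ) : Prop := ∀ N : ℕ, ∃ (n : ℕ) (ks : List ℕ) (m q : ℕ), N ≤ n ∧ N ≤ m ∧ (∀ k ∈ ks, 8 ≤ k) ∧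
  ks.length ≤ B ∧ (m % 2 = 1 ↔ q % 3 = 1) ∧
    Rch z ((dec (replicate n false ++ (true :: (code ks ++ replicate m false)))).drop (q % 3))

/-- a computation that ends in `z` and starts with at least four long gaps -/
def Seed4 (z : List Bool) : Prop := ∃ (n : ℕ) (ks : List ℕ) (m q : ℕ), 72 ≤ n ∧ 72 ≤ m ∧ (∀ k ∈ ks, 8 ≤ k) ∧ 4 ≤ ks.length ∧
  (m % 2 = 1 ↔ q % 3 = 1) ∧ Rch z ((dec (replicate n false ++ (true :: (code ks ++ replicate m false)))).drop (q % 3))

end Pool.Agent.PR33C
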