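import Pool.Agent.PR33C.Defs

/-!
# [PR33C-Seeds4] computations with at least four long gaps that end in cycles of all the lengths (helper95)
-/

set_option autoImplicit false

namespace Pool.Agent.PR33C

open Pool.Agent.PostTag Pool.Agent.PT33 Pool.Agent.PR33 List

theorem seed4_data {d : Data} (h : okD d = true) (hk1 : 4 ≤ d.k1.length) (t : ℕ) :
    Seed4 (ZZ (GG d) t) ∧ Function.minimalPeriod step (ZZ (GG d) t) = (GG d).length + 12 * t := by
  simp only [okD, Bool.and_eq_true, decide_eq_true_eq, List.all_eq_true, List.mem_range] at h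
  obtain ⟨h1, h2, h3, h4, h5, h6, h8, h9, h10, h11⟩ := h
  refine ⟨⟨d.n, d.k1 ++ (rp t d.us ++ d.e1), d.m, d.q, h1, h2, ?_, ?_, h3, ?_⟩, least_XX h11 t⟩
  · intro k hk
    rw [List.mem_append, List.mem_append] at hk
    rcases hk with hk | hk | hk
    · exact h4 k hk
    · exact h5 k (mem_rp t hk)
    · exact h6 k hk
  · rw [List.length_append]
    omega
  · have e1 : replicate d.n false ++ (true :: (code (d.k1 ++ (rp t d.us ++ d.e1)) ++ replicate d.m false)) =
        word t (top d) := by
      simp only [word, top, code_append, code_rp, List.append_assoc, List.cons_append]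
    rw [e1]
    apply levels t d.J (top d) h8
    rw [h9]
    exact to_zz d t h10

theorem seed4_single {n : ℕ} {ks : List ℕ} {m q J d p : ℕ} (h : okS2 n ks m q J d p = true) (hks : 4 ≤ ks.length) :
    ∃ z, Seed4 z ∧ Function.minimalPeriod step z = p := by
  simp only [okS2, Bool.and_eq_true, decide_eq_true_eq, List.all_eq_true, List.mem_range] at h
  obtain ⟨h1, h2, h3, h4, h5, h6, h7, h8, h9, h10, h11, h12⟩ := h
  obtain ⟨c, hc⟩ : ∃ c, c = pw^[J] (q, sw n ks m) := ⟨_, rfl⟩
  rw [← hc] at h6 h7 h8 h9 h10 h12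
  obtain ⟨X, hX⟩ : ∃ X, X = sx d c := ⟨_, rfl⟩
  rw [← hX] at h8 h9 h10 h12
  refine ⟨(dec X).drop 1, ?_, ?_⟩
  · refine ⟨n, ks, m, q, h1, h2, h4, hks, h3, ?_⟩
    have h13 : Rch ((dec X).drop 1) ((dec (pw^[J] (q, sw n ks m)).2).drop ((pw^[J] (q, sw n ks m)).1 % 3)) := by
      rw [← hc]
      have e1 : c.2 = c.2.take d ++ c.2.drop d := (List.take_append_drop d c.2).symm
      rw [e1, dec_append]
      apply part _ _ _ (two_le _ h6)
      rw [h7, ← dec_append, hX]
      exact ⟨0, rfl⟩
    exact passes J (q, sw n ks m) h5 h13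
  · obtain ⟨x1, x2, x3, x4, x5, x6, X', hX6⟩ : ∃ x1 x2 x3 x4 x5 x6 X', X = x1 :: x2 :: x3 :: x4 :: x5 :: x6 :: X' := by
      have hl : 6 ≤ X.length := by omega
      rcases X with _ | ⟨x1, _ | ⟨x2, _ | ⟨x3, _ | ⟨x4, _ | ⟨x5, _ | ⟨x6, X'⟩⟩⟩⟩⟩⟩
      · simp at hl
      · simp at hl
      · simp at hl
      · simp at hl
      · simp at hl
      · simp at hl
      · exact ⟨x1, x2, x3, x4, x5, x6, X', rfl⟩
    have hd4 : ∀ x1 x2 x3 x4 : Bool, 2 ≤ (T 1 [x1, x2, x3, x4]).length := by decide
    have e : X = [x1, x2, x3, x4] ++ (x5 :: x6 :: X') := hX6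
    rw [← h10]
    apply least (by omega)
    · have := periodic (A := [x1, x2, x3, x4]) (B := x5 :: x6 :: X') (by rw [← e]; exact h8) (by rw [← e]; exact h9)
        (hd4 x1 x2 x3 x4) (by simp)
      rwa [← e] at this
    · intro j hj
      have := heads_fix (A := [x1, x2, x3, x4]) (B := x5 :: x6 :: X') (by rw [← e]; exact h8) (hd4 x1 x2 x3 x4) (by simp) j
        (by rw [← e]; exact hj)
      rwa [← e] at this
    · intro g hg hg2
      rw [h10]
      rcases h12 g (by omega) with h | h | h
      · omega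
      · omega
      · exact h

/-- the least periods -/
theorem all_seeds4 (p : ℕ) (hp : p = 6 ∨ p = 10 ∨ (14 ≤ p ∧ Even p)) : ∃ z, Seed4 z ∧ Function.minimalPeriod step z = p := by
  by_cases hs : p < 48 ∧ p ≠ 38 ∧ p ≠ 40 ∧ p ≠ 42 ∧ p ≠ 44 ∧ p ≠ 46
  · have h : p = 6 ∨ p = 10 ∨ p = 14 ∨ p = 16 ∨ p = 18 ∨ p = 20 ∨ p = 22 ∨ p = 24 ∨ p = 26 ∨ p = 28 ∨ p = 30 ∨ p = 32 ∨
        p = 34 ∨ p = 36 := by
      rcases hp with h | h | ⟨h, e⟩
      · omega
      · omega
      · rw [Nat.even_iff] at e
        omega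
    rcases h with rfl | rfl | rfl | rfl | rfl | rfl | rfl | rfl | rfl | rfl | rfl | rfl | rfl | rfl
    · exact seed4_single seed_6 (by decide)
    · exact seed4_single seed_10 (by decide)
    · exact seed4_single seed_14 (by decide)
    · exact seed4_single seed_16 (by decide)
    · exact seed4_single seed_18 (by decide)
    · exact seed4_single seed_20 (by decide)
    · exact seed4_single seed_22 (by decide)
    · exact seed4_single seed_24 (by decide)
    · exact seed4_single seed_26 (by decide)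
    · exact seed4_single seed_28 (by decide)
    · exact seed4_single seed_30 (by decide)
    · exact seed4_single seed_32 (by decide)
    · exact seed4_single seed_34 (by decide)
    · exact seed4_single seed_36 (by decide)
  · have he : p % 2 = 0 := by
      rcases hp with h | h | ⟨h, e⟩
      · omega
      · omega
      · exact Nat.even_iff.1 e
    have hf : ∀ (d : Data) (s : ℕ), okD d = true → (GG d).length = s → 4 ≤ d.k1.length → s ≤ p → p % 12 = s % 12 →
        ∃ z, Seed4 z ∧ Function.minimalPeriod step z = p := by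
      intro d s h1 h2 hk h3 h4
      obtain ⟨t, ht⟩ : ∃ t, p = s + 12 * t := ⟨(p - s) / 12, by omega⟩
      obtain ⟨f1, f2⟩ := seed4_data h1 hk t
      exact ⟨_, f1, by rw [f2, h2, ht]⟩
    have hr : p % 12 = 0 ∨ p % 12 = 2 ∨ p % 12 = 4 ∨ p % 12 = 6 ∨ p % 12 = 8 ∨ p % 12 = 10 := by omega
    rcases hr with hr | hr | hr | hr | hr | hr
    · exact hf l0 48 ok_l0 len_l0 (by decide) (by omega) (by omega)
    · exact hf l2 38 ok_l2 len_l2 (by decide) (by omega) (by omega)
    · exact hf l4 40 ok_l4 len_l4 (by decide) (by omega) (by omega)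
    · exact hf l6 42 ok_l6 len_l6 (by decide) (by omega) (by omega)
    · exact hf l8 44 ok_l8 len_l8 (by decide) (by omega) (by omega)
    · exact hf l10 46 ok_l10 len_l10 (by decide) (by omega) (by omega)

end Pool.Agent.PR33C
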