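import Pool.Agent.PR33C.ContextC
import Pool.Agent.PR33C.Chain
import Pool.Agent.PR33C.Seeds4
import Pool.Agent.PR33C.CF

/-!
# [PR33C-Final] no context-free language separates the inputs with a given cycle length from the halting inputs (helper33)
-/

set_option autoImplicit false

namespace Pool.Agent.PR33C

open Pool.Agent.PostTag Pool.Agent.PT33 Pool.Agent.PR33 List

/-- the main theorem for `step` -/
theorem main (u v : List Bool) (p : ℕ) (hp : p = 6 ∨ p = 10 ∨ (14 ≤ p ∧ Even p)) : ∃ N : ℕ,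
    {w : List Bool | w.count true ≤ N ∧ (∀ j, 3 ≤ (step^[j] (u ++ w ++ v)).length) ∧
      ∃ k, Function.minimalPeriod step (step^[k] (u ++ w ++ v)) = p}.Infinite ∧
    ∀ K : Language Bool, K.IsContextFree → {w : List Bool | w.count true ≤ N ∧ u ++ w ++ v ∈ K}.Infinite →
      ∃ w : List Bool, w.count true ≤ N ∧ u ++ w ++ v ∈ K ∧ ∃ k, (step^[k] (u ++ w ++ v)).length < 3 := by
  obtain ⟨z, s1, s2⟩ := all_seeds4 p hp
  obtain ⟨B, hB⟩ := bseed s1
  obtain ⟨N, hN⟩ := contextC hB u v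
  refine ⟨N, ?_, fun K hK hi => cf_halts u v N K hK hi⟩
  intro hf
  obtain ⟨L, hL⟩ : ∃ L, ∀ w ∈ hf.toFinset, w.length ≤ L :=
    ⟨hf.toFinset.sup List.length, fun w hw => Finset.le_sup (f := List.length) hw⟩
  obtain ⟨w, h1, h2, k, h3⟩ := hN (L + 1)
  have h5 : Function.minimalPeriod step (step^[k] (u ++ w ++ v)) = p := by rw [h3, s2]
  have := hL w (by
    rw [Set.Finite.mem_toFinset]
    exact ⟨h2, long_words (k := k) (by rw [h5]; omega), k, h5⟩)
  omega

end Pool.Agent.PR33C
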